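import Pool.Agent.ASD.Stmts2
import Pool.Agent.Helper32_SOR.UNI

/-!
# Squad ASD, row UNJ: universal functions of the types, one more property
-/

set_option autoImplicit false
set_option linter.unusedSectionVars false

open scoped BigOperators

noncomputable section

namespace Pool.Agent.SOR.H66J

open Pool.Agent.SOR.H32

/-- UNJ -/
theorem unj (hlex : LexStmt) (hxsg : XsgStmt) : Pool.Agent.PP.SD.UnjStmt := by
  intro ℓ _ e P _ _ hP r₁ r₂ p₀ hr₁ hr₂ he₁ he₂ h0₁ h0₂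
  have hℓ : ℓ.Prime := Fact.out
  obtain ⟨n, hn⟩ : ∃ n, n = ℓ ^ e := ⟨_, rfl⟩
  have hn0 : 0 < n := by
    rw [hn]
    exact pow_pos hℓ.pos e
  rw [← hn]
  obtain ⟨R, hR⟩ : ∃ R, R = Rl ℓ := ⟨_, rfl⟩
  rw [← hR] at hr₁ hr₂ he₁ he₂ h0₁ h0₂ ⊢
  refine ⟨Phi R n r₁ r₂, Psi R n r₁ r₂ p₀, fun U => mu R n r₁ U * mu R n r₂ U, ?_, ?_, ?_, ?_,
    ?_, ?_, ?_, ?_, ?_⟩
  · intro Λ h
    unfold Phi
    rw [mu_Ls h0₁ h, mu_Lt h0₁ h, al_zero h]
    ring
  · intro Λ h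
    unfold Phi
    rw [mu_Ls h0₂ h, mu_Lt h0₂ h, be_zero h]
    ring
  · intro Λ h h'
    unfold Psi
    split_ifs
    · unfold Psi'
      rw [mu_Ls h0₂ h', mu_Lt h0₂ h', al_zero h', mu_Ls h0₁ h]
      ring
    · rfl
  · intro Λ h h'
    unfold Psi
    split_ifs with hL
    · have e1 : mu R n r₁ (Ls n Λ) = 0 := mu_zero h0₁ fun g hg => (h' (g.1, 1, g.2) hg rfl).1
      have e2 : mu R n r₂ (Ls n Λ) = 0 := mu_zero h0₂ fun g hg => (h' (g.1, 1, g.2) hg rfl).2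
      have e3 : bf R n r₁ 0 (mu R n r₁ (Lt n Λ)) Λ = mu R n r₁ (Lt n Λ) := by
        apply bf_nu
        · intro h1
          exact mu_Lt h0₁ h1
        · intro k l p hp
          rw [mul_zero, sub_zero]
          exact hL l p (h _ hp)
      unfold Psi'
      rw [e1, e2, e3]
      ring
    · rfl
  · intro U h
    show mu R n r₁ U * mu R n r₂ U = 0
    rw [mu_zero h0₁ h, zero_mul]
  · intro U h
    show mu R n r₁ U * mu R n r₂ U = 0
    rw [mu_zero h0₂ h, mul_zero]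
  · intro U p h
    show mu R n r₁ U * mu R n r₂ U = _
    rw [mu_one h, mu_one h]
  · intro Λ hΛ hα hβ
    have hmu : ∀ {r : P → ℚ}, (∀ p, r p ∈ R → r p = 0) →
        (∀ g ∈ Λ, g.1 = 1 ∨ g.2.1 = 1 → r g.2.2 ∈ R) →
        mu R n r (Ls n Λ) = 0 ∧ mu R n r (Lt n Λ) = 0 := fun h0 h =>
      ⟨mu_zero h0 fun g hg => h (g.1, 1, g.2) hg (Or.inr rfl),
        mu_zero h0 fun g hg => h (1, g.1, g.2) hg (Or.inl rfl)⟩
    obtain ⟨m1, m2⟩ := hmu h0₁ fun g hg h => (hΛ g hg h).1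
    obtain ⟨m3, m4⟩ := hmu h0₂ fun g hg h => (hΛ g hg h).2
    refine ⟨al R n r₂ 0 Λ, bf R n r₁ 0 0 Λ, ?_, fun k l p hp => ⟨?_, ?_⟩⟩
    · unfold Psi
      rw [if_pos]
      · unfold Psi'
        rw [m1, m2, m3, m4]
        ring
      · intro l p hp
        rw [m2, mul_zero, sub_zero]
        exact (hΛ _ hp (Or.inl rfl)).1
    · by_cases hR2 : ∀ g ∈ Λ, r₂ g.2.2 ∈ R
      · rw [al_zero hR2, mul_zero, sub_zero]
        exact hR2 _ hp
      · have hex : ∃ α : ℚ, ∀ (k l : ℤ) (p : P), (Multiplicative.ofAdd (k : ZMod n),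
            Multiplicative.ofAdd (l : ZMod n), p) ∈ Λ → r₂ p - k * α - l * 0 ∈ R := by
          obtain ⟨α, h⟩ := hα
          refine ⟨α, fun k l p hp => ?_⟩
          rw [mul_zero, sub_zero]
          exact h k l p hp
        have h1 : al R n r₂ 0 Λ = hex.choose := by
          unfold al
          rw [if_neg hR2, dif_pos hex]
        have h2 := hex.choose_spec k l p hp
        rw [mul_zero, sub_zero] at h2
        rw [h1]
        exact h2
    · have h1 := bf_spec (R := R) (n := n) (r := r₁) (μ := 0) (ν := 0) (Λ := Λ) (fun _ => rfl)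
        (by
          obtain ⟨β, h⟩ := hβ
          refine ⟨β, fun k l p hp => ?_⟩
          rw [mul_zero, sub_zero]
          exact h k l p hp) k l p hp
      rw [mul_zero, sub_zero] at h1
      exact h1
  intro Γ X _ _ D Q q₀ hq₀ i q σ hXa M hM has ha3 hTs
  have hc := hXa.comm
  obtain ⟨s, hs⟩ : ∃ s, s = D.a ^ M := ⟨_, rfl⟩
  obtain ⟨t, ht⟩ : ∃ t, t = D.a3 ^ M := ⟨_, rfl⟩
  obtain ⟨τ, hτ⟩ : ∃ τ, τ = D.T ^ M := ⟨_, rfl⟩
  rw [← hs, ← ht, ← hτ]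
  rw [← hs] at has
  rw [← ht] at ha3
  rw [← hτ] at hTs
  -- commuting elements
  have c_as : Commute D.a s := by
    rw [hs]
    exact (Commute.refl _).pow_right M
  have c_at : Commute D.a t := by
    rw [ht]
    exact (comm_a_a3 D).pow_right M
  have c_aτ : Commute D.a τ := by
    rw [hτ]
    exact (comm_a_T D).pow_right M
  have c_bτ : Commute D.b τ := by
    rw [hτ]
    exact (comm_b_T D).pow_right M
  have c_As : Commute D.A s := by
    rw [hs]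
    exact (comm_a_A D).symm.pow_right M
  have c_At : Commute D.A t := by
    rw [ht]
    exact (comm_A_a3 D).pow_right M
  have c_A's : Commute D.A' s := by
    rw [hs]
    exact (comm_a_A' D).symm.pow_right M
  have c_Ts : Commute D.T s := by
    rw [hs]
    exact (comm_a_T D).symm.pow_right M
  have c_Tτ : Commute D.T τ := by
    rw [hτ]
    exact (Commute.refl _).pow_right M
  have c_st : s * t = t * s := by
    rw [hs, ht]
    exact ((comm_a_a3 D).pow_pow M M).eq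
  have c_sτ : s * τ = τ * s := by
    rw [hs, hτ]
    exact ((comm_a_T D).pow_pow M M).eq
  have hBs : D.B * s * D.B⁻¹ = t := by
    rw [hs, ht, ← conj_B D, conj_pow]
  -- the invariant subset
  have hqq : ∀ p p' x, q p (q p' x) = q p' (q p x) := by
    intro p p' x
    have h1 : q p (q p' x) = q (p * p') x := by
      rw [map_mul]
      rfl
    have h2 : q p' (q p x) = q (p' * p) x := by
      rw [map_mul]
      rfl
    rw [h1, h2, mul_comm]
  have hgd : ∀ w : Equiv.Perm X, (∀ p x, w (q p x) = q p (w x)) → ∀ x ∈ Gd q, w x ∈ Gd q := by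
    intro w hw x hx p hp
    rw [← hw] at hp
    exact hx p (w.injective hp)
  have hgi : ∀ g, ∀ x ∈ Gd q, i g x ∈ Gd q := fun g => hgd _ fun p x => hc g p x
  have hgq : ∀ p, ∀ x ∈ Gd q, q p x ∈ Gd q := fun p => hgd _ fun p' x => hqq p p' x
  have hσq : ∀ p x, σ (q p x) = q p (σ x) := fun p x => (hXa.sq p x).symm
  have hσq' : ∀ p x, σ⁻¹ (q p x) = q p (σ⁻¹ x) := by
    intro p x
    apply σ.injective
    rw [hσq]
    have h1 : ∀ y, σ (σ⁻¹ y) = y := by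
      intro y
      have h2 := perm_inv σ⁻¹ y
      rw [inv_inv] at h2
      exact h2
    rw [h1, h1]
  have hgσ : ∀ x ∈ Gd q, σ x ∈ Gd q := hgd _ hσq
  have hgσ' : ∀ x ∈ Gd q, σ⁻¹ x ∈ Gd q := hgd _ hσq'
  obtain ⟨i', hi'⟩ : ∃ i' : Γ →* Equiv.Perm (Gd q), i' = rsth i (Gd q) hgi := ⟨_, rfl⟩
  obtain ⟨q', hq'⟩ : ∃ q' : Q →* Equiv.Perm (Gd q), q' = rsth q (Gd q) hgq := ⟨_, rfl⟩
  obtain ⟨σ', hσ'⟩ : ∃ σ' : Equiv.Perm (Gd q), σ' = rst σ (Gd q) hgσ hgσ' := ⟨_, rfl⟩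
  have ic : ∀ g (x : Gd q), ((i' g x : Gd q) : X) = i g x := by
    intro g x
    rw [hi', rsth_coe]
  have qc : ∀ p (x : Gd q), ((q' p x : Gd q) : X) = q p x := by
    intro p x
    rw [hq', rsth_coe]
  have σc : ∀ (x : Gd q), ((σ' x : Gd q) : X) = σ x := by
    intro x
    rw [hσ', rst_coe]
  have hcop : (orderOf σ').Coprime ℓ := by
    apply Nat.Coprime.coprime_dvd_left _ hXa.cop
    apply orderOf_dvd_of_pow_eq_one
    ext x
    rw [hσ', rst_pow, pow_orderOf_eq_one]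
    rfl
  -- the functions
  obtain ⟨κ₁, hκ₁⟩ : ∃ κ₁ : Gd q → ℚ, ∀ x, κ₁ x = mu R n r₁ (ty1 n i q τ x) := ⟨_, fun _ => rfl⟩
  obtain ⟨κ₂, hκ₂⟩ : ∃ κ₂ : Gd q → ℚ, ∀ x, κ₂ x = mu R n r₂ (ty1 n i q τ x) := ⟨_, fun _ => rfl⟩
  obtain ⟨μ₁, hμ₁⟩ : ∃ μ₁ : Gd q → ℚ, ∀ x, μ₁ x = mu R n r₁ (ty1 n i q s x) := ⟨_, fun _ => rfl⟩
  obtain ⟨μ₂, hμ₂⟩ : ∃ μ₂ : Gd q → ℚ, ∀ x, μ₂ x = mu R n r₂ (ty1 n i q s x) := ⟨_, fun _ => rfl⟩
  obtain ⟨η, hη⟩ : ∃ η : Gd q → ℚ, ∀ x, η x = mu R n r₁ (ty1 n i q s x) -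
      al R n r₁ (mu R n r₁ (ty1 n i q t x)) (ty2 n i q s t x) := ⟨_, fun _ => rfl⟩
  obtain ⟨ζ, hζ⟩ : ∃ ζ : Gd q → ℚ, ∀ x, ζ x = mu R n r₂ (ty1 n i q t x) -
      be R n r₂ (mu R n r₂ (ty1 n i q s x)) (ty2 n i q s t x) := ⟨_, fun _ => rfl⟩
  obtain ⟨δ, hδ⟩ : ∃ δ : Gd q → ℚ, ∀ x, δ x =
      bf R n r₁ (mu R n r₁ (ty1 n i q s x)) (mu R n r₁ (ty1 n i q τ x)) (ty2 n i q s τ x) -
        mu R n r₁ (ty1 n i q τ x) :=
    ⟨_, fun _ => rfl⟩
  obtain ⟨m, hm⟩ : ∃ m : Gd q → ℚ, ∀ x, m x =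
      al R n r₂ (mu R n r₂ (ty1 n i q τ x)) (ty2 n i q s τ x) := ⟨_, fun _ => rfl⟩
  -- invariance
  have hall : ∀ x y : Gd q, ty1 n i q s x = ty1 n i q s y → ty1 n i q t x = ty1 n i q t y →
      ty1 n i q τ x = ty1 n i q τ y → ty2 n i q s t x = ty2 n i q s t y →
      ty2 n i q s τ x = ty2 n i q s τ y →
      ∀ F ∈ ({κ₁, κ₂, μ₁, μ₂, η, ζ, δ, m} : Set (Gd q → ℚ)), F x = F y := by
    intro x y e1 e2 e3 e4 e5 F hF
    simp only [Set.mem_insert_iff, Set.mem_singleton_iff] at hF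
    rcases hF with h | h | h | h | h | h | h | h
    · rw [h, hκ₁, hκ₁, e3]
    · rw [h, hκ₂, hκ₂, e3]
    · rw [h, hμ₁, hμ₁, e1]
    · rw [h, hμ₂, hμ₂, e1]
    · rw [h, hη, hη, e1, e2, e4]
    · rw [h, hζ, hζ, e1, e2, e4]
    · rw [h, hδ, hδ, e1, e3, e5]
    · rw [h, hm, hm, e3, e5]
  have hνB : ∀ x : X, ty1 n i q s (i D.B⁻¹ x) = ty1 n i q t x := by
    intro x
    rw [ty1_conj hc, inv_inv, hBs]
  have hμB₁ : ∀ x : Gd q, μ₁ (i' D.B⁻¹ x) = mu R n r₁ (ty1 n i q t x) := by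
    intro x
    rw [hμ₁, ic, hνB]
  have hμB₂ : ∀ x : Gd q, μ₂ (i' D.B⁻¹ x) = mu R n r₂ (ty1 n i q t x) := by
    intro x
    rw [hμ₂, ic, hνB]
  -- from the elements to the `M`-th powers
  have hMr₁ : ∀ p, r₁ (p ^ M) - r₁ p ∈ R := by
    intro p
    rw [hR]
    rw [hR] at hr₁ he₁
    exact r_pow_M hr₁ he₁ hn hM p
  have hMr₂ : ∀ p, r₂ (p ^ M) - r₂ p ∈ R := by
    intro p
    rw [hR]
    rw [hR] at hr₂ he₂
    exact r_pow_M hr₂ he₂ hn hM p
  have hto : ∀ {r : P → ℚ}, (∀ p, r (p ^ M) - r p ∈ R) → ∀ (p : Q) (c : ℚ),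
      r (((p ^ M : Q)) : P) - c ∈ R → r (p : P) - c ∈ R := by
    intro r hr p c h
    rw [Subgroup.coe_pow] at h
    have h1 := R.sub_mem h (hr p)
    have e1 : r ((p : P) ^ M) - c - (r ((p : P) ^ M) - r p) = r (p : P) - c := by ring
    rwa [e1] at h1
  have hm1 : ∀ (g : Γ) (x : Gd q) (k : ℤ) (p : Q), i' (g ^ k) x = q' p x →
      i ((g ^ M) ^ k) x = q (p ^ M) x := by
    intro g x k p h
    have h1 : i (g ^ k) x = q p x := by
      rw [← ic, ← qc, h]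
    have h2 := pow_rel hc h1 M
    have e1 : (g ^ M) ^ k = (g ^ k) ^ M := by
      rw [← zpow_natCast, ← zpow_natCast, ← zpow_mul, ← zpow_mul, mul_comm]
    rw [e1]
    exact h2
  have hm2 : ∀ (g g' : Γ), Commute g g' → ∀ (x : Gd q) (k l : ℤ) (p : Q),
      i' (g ^ k * g' ^ l) x = q' p x → i ((g ^ M) ^ k * (g' ^ M) ^ l) x = q (p ^ M) x := by
    intro g g' hg x k l p h
    have h1 : i (g ^ k * g' ^ l) x = q p x := by
      rw [← ic, ← qc, h]
    have h2 := pow_rel hc h1 M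
    have e1 : ∀ (w : Γ) (k : ℤ), (w ^ M) ^ k = (w ^ k) ^ M := by
      intro w k
      rw [← zpow_natCast, ← zpow_natCast, ← zpow_mul, ← zpow_mul, mul_comm]
    rw [e1, e1, ← ((hg.zpow_left k).zpow_right l).mul_pow]
    exact h2
  have hFm : Fm R D i' q' (fun p : Q => r₁ p) (fun p : Q => r₂ p) κ₁ κ₂ μ₁ μ₂ η ζ δ m := by
    constructor
    · intro F hF p x
      have hw1 : ∀ g x, q p (i g x) = i g (q p x) := fun g x => (hc g p x).symm
      have hw2 : ∀ p' x, q p (q p' x) = q p' (q p x) := fun p' x => hqq p p' x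
      apply hall _ _ _ _ _ _ _ F hF
      · rw [qc, ty1_perm hw1 hw2]
      · rw [qc, ty1_perm hw1 hw2]
      · rw [qc, ty1_perm hw1 hw2]
      · rw [qc, ty2_perm hw1 hw2]
      · rw [qc, ty2_perm hw1 hw2]
    · intro F hF x
      apply hall _ _ _ _ _ _ _ F hF
      · rw [ic, ty1_inv hc c_as]
      · rw [ic, ty1_inv hc c_at]
      · rw [ic, ty1_inv hc c_aτ]
      · rw [ic, ty2_inv hc c_as c_at]
      · rw [ic, ty2_inv hc c_as c_aτ]
    · intro F hF x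
      simp only [Set.mem_insert_iff, Set.mem_singleton_iff] at hF
      rcases hF with h | h
      · rw [h, hκ₁, hκ₁, ic, ty1_inv hc c_bτ]
      · rw [h, hκ₂, hκ₂, ic, ty1_inv hc c_bτ]
    · intro F hF x
      simp only [Set.mem_insert_iff, Set.mem_singleton_iff] at hF
      rcases hF with h | h | h | h
      · rw [h, hμ₁, hμ₁, ic, ty1_inv hc c_As]
      · rw [h, hμ₂, hμ₂, ic, ty1_inv hc c_As]
      · rw [h, hη, hη, ic, ty1_inv hc c_As, ty1_inv hc c_At, ty2_inv hc c_As c_At]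
      · rw [h, hζ, hζ, ic, ty1_inv hc c_As, ty1_inv hc c_At, ty2_inv hc c_As c_At]
    · intro F hF x
      simp only [Set.mem_insert_iff, Set.mem_singleton_iff] at hF
      rcases hF with h | h
      · rw [h, hμ₁, hμ₁, ic, ty1_inv hc c_A's]
      · rw [h, hμ₂, hμ₂, ic, ty1_inv hc c_A's]
    · intro F hF x
      simp only [Set.mem_insert_iff, Set.mem_singleton_iff] at hF
      rcases hF with h | h
      · rw [h, hδ, hδ, ic, ty1_inv hc c_Ts, ty1_inv hc c_Tτ, ty2_inv hc c_Ts c_Tτ]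
      · rw [h, hm, hm, ic, ty1_inv hc c_Tτ, ty2_inv hc c_Ts c_Tτ]
    · intro x k p h
      have h1 := hm1 _ _ _ _ h
      rw [← hτ] at h1
      have h2 := (mem_ty1 (n := n) hTs (p ^ M) k).2 h1
      rw [hκ₁]
      exact hto hMr₁ p _ (pt_mu hlex hn0 hc hTs x.2 hr₁ k _ h2)
    · intro x k p h
      have h1 := hm1 _ _ _ _ h
      rw [← hτ] at h1
      have h2 := (mem_ty1 (n := n) hTs (p ^ M) k).2 h1
      rw [hκ₂]
      exact hto hMr₂ p _ (pt_mu hlex hn0 hc hTs x.2 hr₂ k _ h2)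
    · intro x k p h
      have h1 := hm1 _ _ _ _ h
      rw [← hs] at h1
      have h2 := (mem_ty1 (n := n) has (p ^ M) k).2 h1
      rw [hμ₁]
      exact hto hMr₁ p _ (pt_mu hlex hn0 hc has x.2 hr₁ k _ h2)
    · intro x k p h
      have h1 := hm1 _ _ _ _ h
      rw [← hs] at h1
      have h2 := (mem_ty1 (n := n) has (p ^ M) k).2 h1
      rw [hμ₂]
      exact hto hMr₂ p _ (pt_mu hlex hn0 hc has x.2 hr₂ k _ h2)
    · intro x k l p h
      have h1 := hm2 _ _ (comm_a_a3 D) _ _ _ _ h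
      rw [← hs, ← ht] at h1
      have h2 := (mem_ty2 (n := n) has ha3 (p ^ M) k l).2 h1
      have h3 := pt_al hlex hn0 hc c_st has ha3 x.2 hr₁ h0₁ k l _ h2
      rw [hμB₁, hμ₁, hη, sub_sub_cancel, sub_sub]
      rw [sub_sub] at h3
      exact hto hMr₁ p _ h3
    · intro x k l p h
      have h1 := hm2 _ _ (comm_a_a3 D) _ _ _ _ h
      rw [← hs, ← ht] at h1
      have h2 := (mem_ty2 (n := n) has ha3 (p ^ M) k l).2 h1
      have h3 := pt_be hlex hn0 hc c_st has ha3 x.2 hr₂ h0₂ k l _ h2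
      rw [hμB₂, hμ₂, hζ, sub_sub_cancel, sub_sub]
      rw [sub_sub] at h3
      exact hto hMr₂ p _ h3
    · intro x k l p h
      have h1 := hm2 _ _ (comm_a_T D) _ _ _ _ h
      rw [← hs, ← hτ] at h1
      have h2 := (mem_ty2 (n := n) has hTs (p ^ M) k l).2 h1
      have h3 := pt_bf hlex hn0 hc c_sτ has hTs x.2 hr₁ h0₁ (mu R n r₁ (ty1 n i q τ x)) k l _ h2
      rw [hμ₁, hδ, hκ₁, add_sub_cancel, sub_sub]
      rw [sub_sub] at h3
      exact hto hMr₁ p _ h3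
    · intro x k l p h
      have h1 := hm2 _ _ (comm_a_T D) _ _ _ _ h
      rw [← hs, ← hτ] at h1
      have h2 := (mem_ty2 (n := n) has hTs (p ^ M) k l).2 h1
      have h3 := pt_al hlex hn0 hc c_sτ has hTs x.2 hr₂ h0₂ k l _ h2
      rw [hm, hκ₂, sub_sub]
      rw [sub_sub] at h3
      exact hto hMr₂ p _ h3
  have hσall : ∀ F ∈ ({κ₁, κ₂, μ₁, μ₂, η, ζ, δ, m} : Set (Gd q → ℚ)), ∀ x, F (σ' x) = F x := by
    intro F hF x
    have hw1 : ∀ g x, σ (i g x) = i g (σ x) := fun g x => (hXa.sg g x).symm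
    apply hall _ _ _ _ _ _ _ F hF
    · rw [σc, ty1_perm hw1 hσq]
    · rw [σc, ty1_perm hw1 hσq]
    · rw [σc, ty1_perm hw1 hσq]
    · rw [σc, ty2_perm hw1 hσq]
    · rw [σc, ty2_perm hw1 hσq]
  classical
  rw [hR] at hr₁ hr₂ hFm
  have hfin := hxsg ℓ Γ Q (Gd q) D i' q' q₀ σ' (hP.to_subgroup Q)
    (by
      intro g p x
      apply Subtype.ext
      rw [ic, qc, qc, ic, hc])
    (by
      intro g x
      apply Subtype.ext
      rw [ic, σc, σc, ic, hXa.sg])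
    (by
      intro p x
      apply Subtype.ext
      rw [qc, σc, σc, qc, hXa.sq])
    hcop
    (by
      ext x
      rw [ic, hXa.ts, Equiv.Perm.mul_apply, Equiv.Perm.mul_apply, qc, σc])
    (by
      intro p x h
      apply x.2
      rw [← qc, h])
    (fun p => r₁ p) (fun p => r₂ p)
    (by
      intro p p'
      show r₁ ((p * p' : Q) : P) - r₁ p - r₁ p' ∈ _
      rw [Subgroup.coe_mul]
      exact hr₁ _ _)
    (by
      intro p p'
      show r₂ ((p * p' : Q) : P) - r₂ p - r₂ p' ∈ _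
      rw [Subgroup.coe_mul]
      exact hr₂ _ _)
    κ₁ κ₂ μ₁ μ₂ η ζ δ m hFm hσall
  rw [hR]
  refine (congrArg (· ∈ Rl ℓ) ?_).mp hfin
  congr 1
  rw [Finset.sum_subtype (Finset.univ.filter (· ∈ Gd q)) (p := fun x => x ∈ Gd q) (by
    intro x
    simp)]
  apply Finset.sum_congr rfl
  intro x _
  have hPsi : Psi R n r₁ r₂ p₀ (ty2 n i q s τ (x : X)) =
      Psi' R n r₁ r₂ p₀ (ty2 n i q s τ (x : X)) := by
    unfold Psi
    rw [if_pos]
    intro l p hp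
    rw [Lt_ty2 has hTs] at hp ⊢
    rw [← hR] at hr₁
    exact pt_mu hlex hn0 hc hTs x.2 hr₁ l p hp
  rw [hR] at hPsi
  rw [hPsi]
  unfold Phi Psi'
  rw [Ls_ty2 has ha3, Lt_ty2 has ha3, Ls_ty2 has hTs, Lt_ty2 has hTs, hμB₁, hμB₂, hκ₁, hκ₂,
    hμ₁, hμ₂, hη, hζ, hδ, hm, hq₀, hR]
  ring

end Pool.Agent.SOR.H66J

namespace Pool.Agent.PP.SD.H66

/-- UNJ -/
theorem unj (hlex : SOR.LexStmt) (hxsg : SOR.XsgStmt) : UnjStmt := SOR.H66J.unj hlex hxsg

end Pool.Agent.PP.SD.H66
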